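import Pool.Agent.H77.F1.Main

/-!
The f-vectors of line arrangements, away from the simplicial boundary.
-/

namespace Pool.Agent.Results.MP_1cb47b_co.BelowSimplicial

open Pool.Agent.H89.Arr

theorem result : ∀ F G : ℕ,
    (Realised F (F + 1 + G) →
      ∃ n : ℕ, ∃ s : Multiset ℕ, s.sum = G ∧
        F + 2 * G + (s.map (fun x => x.choose 2)).sum = n.choose 2) ∧
    (2 ≤ F → (2 * G ^ 2 ≤ F ∨ (G : ℝ) < (F : ℝ) - 24 * (F : ℝ) ^ (3 / 4 : ℝ)) →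
      (∃ n : ℕ, ∃ s : Multiset ℕ, s.sum = G ∧
        F + 2 * G + (s.map (fun x => x.choose 2)).sum = n.choose 2) →
      Realised F (F + 1 + G)) ∧
    ((G : ℝ) < (F : ℝ) - 24 * (F : ℝ) ^ (3 / 4 : ℝ) → 3 * (F : ℝ) ^ (1 / 4 : ℝ) ≤ (G : ℝ) →
      Realised F (F + 1 + G)) :=
  Pool.Agent.H77.F1.main

end Pool.Agent.Results.MP_1cb47b_co.BelowSimplicial
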